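import Pool.Agent.Helper81.EMC.Goals

set_option autoImplicit false

namespace Pool.Agent.Helper83.EMC.IntA

open Finset Helper81.EMC

theorem prod_lower {ι : Type*} (S : Finset ι) (β : ι → ℝ) (hβ : ∀ i, 0 ≤ β i) (u v : ℝ)
    (hu : 0 ≤ u) (hv : 0 ≤ v) :
    u ^ (S.card + 2) + u ^ (S.card + 1) * v * (∑ i ∈ S, β i) +
        u ^ S.card * v ^ 2 * (((∑ i ∈ S, β i) ^ 2 - ∑ i ∈ S, β i ^ 2) / 2) ≤
      u ^ 2 * ∏ i ∈ S, (u + v * β i) ∧ 0 ≤ (∑ i ∈ S, β i) ^ 2 - ∑ i ∈ S, β i ^ 2 := by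
  classical
  induction S using Finset.induction_on with
  | empty => simp
  | insert a S ha ih =>
    obtain ⟨ih1, ih2⟩ := ih
    have hb := hβ a
    have hs : 0 ≤ ∑ i ∈ S, β i := Finset.sum_nonneg (fun i _ => hβ i)
    rw [Finset.prod_insert ha, Finset.sum_insert ha, Finset.sum_insert ha,
      Finset.card_insert_of_notMem ha]
    set e := ∑ i ∈ S, β i with he
    set q := ∑ i ∈ S, β i ^ 2 with hq
    set P := ∏ i ∈ S, (u + v * β i) with hP
    set n := S.card with hn
    refine ⟨?_, ?_⟩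
    · have h1 : 0 ≤ u + v * β a := by positivity
      have h2 := mul_le_mul_of_nonneg_left ih1 h1
      have h3 : 0 ≤ u ^ n * v ^ 3 * β a * ((e ^ 2 - q) / 2) := by
        have : 0 ≤ (e ^ 2 - q) / 2 := by linarith
        positivity
      have e1 : u ^ (n + 1 + 2) = u ^ n * u ^ 3 := by ring
      have e2 : u ^ (n + 1 + 1) = u ^ n * u ^ 2 := by ring
      have e3 : u ^ (n + 1) = u ^ n * u := by ring
      have e4 : u ^ (n + 2) = u ^ n * u ^ 2 := by ring
      rw [e3, e4] at h2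
      rw [e1, e2, e3]
      nlinarith [h2, h3]
    · nlinarith [mul_nonneg hb hs]

theorem ipow (k : ℕ) : ∫ s in (0 : ℝ)..1, s ^ k = 1 / ((k : ℝ) + 1) := by
  rw [integral_pow]
  simp

theorem iint (k : ℕ) : IntervalIntegrable (fun s : ℝ => s ^ k) MeasureTheory.volume 0 1 :=
  (by fun_prop : Continuous fun s : ℝ => s ^ k).intervalIntegrable 0 1

/-- the integral of the lower bound -/
theorem integral_lower (k : ℕ) (B e : ℝ) :
    ∫ s in (0 : ℝ)..1, (1 - s) * (s ^ (k + 3) + s ^ (k + 2) * (1 - s) * B +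
        s ^ (k + 1) * (1 - s) ^ 2 * e) =
      1 / (((k : ℝ) + 5) * ((k : ℝ) + 4)) *
        (1 + 2 * B / ((k : ℝ) + 3) + 6 * e / (((k : ℝ) + 3) * ((k : ℝ) + 2))) := by
  have h : ∀ s : ℝ, (1 - s) * (s ^ (k + 3) + s ^ (k + 2) * (1 - s) * B +
        s ^ (k + 1) * (1 - s) ^ 2 * e) =
      (e * s ^ (k + 1) + (B - 3 * e) * s ^ (k + 2)) + ((1 - 2 * B + 3 * e) * s ^ (k + 3) +
        (B - 1 - e) * s ^ (k + 4)) := by
    intro s; ring
  simp_rw [h]
  rw [intervalIntegral.integral_add (((iint _).const_mul _).add ((iint _).const_mul _))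
      (((iint _).const_mul _).add ((iint _).const_mul _)),
    intervalIntegral.integral_add ((iint _).const_mul _) ((iint _).const_mul _),
    intervalIntegral.integral_add ((iint _).const_mul _) ((iint _).const_mul _)]
  simp only [intervalIntegral.integral_const_mul, ipow]
  push_cast
  have h1 : (k : ℝ) + 1 + 1 ≠ 0 := by positivity
  have h2 : (k : ℝ) + 2 + 1 ≠ 0 := by positivity
  have h3 : (k : ℝ) + 3 + 1 ≠ 0 := by positivity
  have h4 : (k : ℝ) + 4 + 1 ≠ 0 := by positivity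
  have h5 : (k : ℝ) + 2 ≠ 0 := by positivity
  have h6 : (k : ℝ) + 3 ≠ 0 := by positivity
  have h7 : (k : ℝ) + 4 ≠ 0 := by positivity
  have h8 : (k : ℝ) + 5 ≠ 0 := by positivity
  have g1 : (k : ℝ) + 1 + 1 = k + 2 := by ring
  have g2 : (k : ℝ) + 2 + 1 = k + 3 := by ring
  have g3 : (k : ℝ) + 3 + 1 = k + 4 := by ring
  have g4 : (k : ℝ) + 4 + 1 = k + 5 := by ring
  rw [g1, g2, g3, g4]
  field_simp
  ring

theorem pf_stmtIntA : stmtIntA := by
  intro m β b B hm hβ hb hB
  obtain ⟨k, rfl⟩ : ∃ k, m = k + 3 := ⟨m - 3, by omega⟩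
  have hB0 : 0 ≤ B := hB ▸ Finset.sum_nonneg (fun i _ => hβ i)
  set q : ℝ := ∑ i, β i ^ 2 with hq
  set e : ℝ := (B ^ 2 - q) / 2 with he
  have he0 : 0 ≤ e := by
    have := (prod_lower Finset.univ β hβ 0 0 le_rfl le_rfl).2
    rw [hB] at this
    rw [he]; linarith
  have hqb : q ≤ b * B := by
    rw [hq, ← hB, Finset.mul_sum]
    exact Finset.sum_le_sum (fun i _ => by nlinarith [hβ i, hb i])
  have heB : B * max (B - b) 0 / 2 ≤ e := by
    rcases le_total (B - b) 0 with h | h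
    · rw [max_eq_right h]; simpa using he0
    · rw [max_eq_left h]; rw [he]; nlinarith
  have hmono : ∫ s in (0 : ℝ)..1, (1 - s) * (s ^ (k + 3) + s ^ (k + 2) * (1 - s) * B +
        s ^ (k + 1) * (1 - s) ^ 2 * e) ≤ ∫ s in (0 : ℝ)..1, (1 - s) * ∏ i, (s + (1 - s) * β i) := by
    apply intervalIntegral.integral_mono_on (by norm_num)
    · apply Continuous.intervalIntegrable; fun_prop
    · apply Continuous.intervalIntegrable; fun_prop
    · intro s hs
      have hs0 : 0 ≤ s := hs.1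
      have hs1 : 0 ≤ 1 - s := by linarith [hs.2]
      apply mul_le_mul_of_nonneg_left _ hs1
      rcases eq_or_lt_of_le hs0 with h0 | h0
      · rw [← h0]
        rw [zero_pow (by omega), zero_pow (by omega), zero_pow (by omega)]
        simp only [zero_mul, add_zero]
        exact Finset.prod_nonneg (fun i _ => by simpa using hβ i)
      · have h1 := (prod_lower Finset.univ β hβ s (1 - s) hs0 hs1).1
        rw [hB, Finset.card_univ, Fintype.card_fin] at h1
        have h2 : s ^ 2 * (s ^ (k + 3) + s ^ (k + 2) * (1 - s) * B +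
            s ^ (k + 1) * (1 - s) ^ 2 * e) ≤ s ^ 2 * ∏ i, (s + (1 - s) * β i) := by
          refine le_trans (le_of_eq ?_) h1
          rw [he]; ring
        exact le_of_mul_le_mul_left h2 (by positivity)
  rw [integral_lower] at hmono
  refine le_trans ?_ hmono
  push_cast
  have hk2 : (0 : ℝ) < (k : ℝ) + 2 := by positivity
  have hk3 : (0 : ℝ) < (k : ℝ) + 3 := by positivity
  have hk4 : (0 : ℝ) < (k : ℝ) + 4 := by positivity
  have hk5 : (0 : ℝ) < (k : ℝ) + 5 := by positivity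
  have g1 : (k : ℝ) + 3 + 2 = k + 5 := by ring
  have g2 : (k : ℝ) + 3 + 1 = k + 4 := by ring
  have g3 : (k : ℝ) + 3 - 1 = k + 2 := by ring
  rw [g1, g2, g3]
  apply mul_le_mul_of_nonneg_left _ (by positivity)
  have : 3 * B * max (B - b) 0 / (((k : ℝ) + 3) * ((k : ℝ) + 2)) ≤
      6 * e / (((k : ℝ) + 3) * ((k : ℝ) + 2)) := by
    apply div_le_div_of_nonneg_right _ (by positivity)
    nlinarith
  linarith

end Pool.Agent.Helper83.EMC.IntA
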