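import Pool.Agent.Helper81.EMC.Goals

set_option autoImplicit false

namespace Pool.Agent.Helper83.EMC.IntB

open Finset Helper81.EMC

theorem pf_stmtIntB : stmtIntB := by
  intro m z t hz ht
  set g : ℝ := ∑ i, z i with hg
  have hcont1 : Continuous fun θ : ℝ => θ * ∏ i, (1 + θ * z i) := by fun_prop
  have hcont2 : ∀ v : ℝ, Continuous fun θ : ℝ => θ * Real.exp (θ * v) := by intro v; fun_prop
  have hfac : ∀ θ : ℝ, 0 ≤ θ → θ ≤ 1 → ∀ i, 0 ≤ 1 + θ * z i := by
    intro θ h0 h1 i
    nlinarith [hz i]
  rcases eq_or_ne (∏ i, (1 + z i)) 0 with hP | hP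
  · rw [hP]
    refine le_trans ?_ (le_max_left _ _)
    have : 0 ≤ ∫ θ in (0 : ℝ)..1, θ * ∏ i, (1 + θ * z i) := by
      apply intervalIntegral.integral_nonneg (by norm_num)
      intro θ hθ
      exact mul_nonneg hθ.1 (Finset.prod_nonneg fun i _ => hfac θ hθ.1 hθ.2 i)
    linarith
  · have hpos : ∀ i, 0 < 1 + z i := by
      intro i
      have h1 : 1 + z i ≠ 0 := by
        intro h
        exact hP (Finset.prod_eq_zero (Finset.mem_univ i) h)
      have h2 : 0 ≤ 1 + z i := by linarith [hz i]
      exact lt_of_le_of_ne h2 (Ne.symm h1)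
    set L : ℝ := ∑ i, Real.log (1 + z i) with hL
    have hLg : L ≤ g := by
      rw [hL, hg]
      apply Finset.sum_le_sum
      intro i _
      have := Real.log_le_sub_one_of_pos (hpos i)
      linarith
    have hPexp : ∏ i, (1 + z i) = Real.exp L := by
      rw [hL, Real.exp_sum]
      exact Finset.prod_congr rfl (fun i _ => (Real.exp_log (hpos i)).symm)
    have hprod : ∀ θ : ℝ, 0 ≤ θ → θ ≤ 1 → Real.exp (θ * L) ≤ ∏ i, (1 + θ * z i) := by
      intro θ h0 h1
      rw [hL, Finset.mul_sum, Real.exp_sum]
      apply Finset.prod_le_prod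
      · intro i _; exact (Real.exp_pos _).le
      · intro i _
        have hc := rpow_one_add_le_one_add_mul_self (s := z i) (by linarith [hz i]) h0 h1
        rw [Real.rpow_def_of_pos (hpos i)] at hc
        rw [mul_comm θ (Real.log (1 + z i))]
        exact hc
    have hmono : ∫ θ in (0 : ℝ)..1, θ * Real.exp (θ * L) ≤
        ∫ θ in (0 : ℝ)..1, θ * ∏ i, (1 + θ * z i) := by
      apply intervalIntegral.integral_mono_on (by norm_num)
      · exact (hcont2 L).intervalIntegrable _ _
      · exact hcont1.intervalIntegrable _ _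
      · intro θ hθ
        exact mul_le_mul_of_nonneg_left (hprod θ hθ.1 hθ.2) hθ.1
    rw [hPexp]
    set A : ℝ := ∫ θ in (0 : ℝ)..1, θ * Real.exp (θ * L) with hA
    have hcmp : ∫ θ in (0 : ℝ)..1, θ * Real.exp (θ * g) ≤ Real.exp (g - L) * A := by
      rw [hA, ← intervalIntegral.integral_const_mul]
      apply intervalIntegral.integral_mono_on (by norm_num)
      · exact (hcont2 g).intervalIntegrable _ _
      · exact ((hcont2 L).intervalIntegrable _ _).const_mul _
      · intro θ hθ
        have : Real.exp (g - L) * (θ * Real.exp (θ * L)) = θ * Real.exp (g - L + θ * L) := by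
          rw [Real.exp_add]; ring
        rw [this]
        apply mul_le_mul_of_nonneg_left _ hθ.1
        apply Real.exp_le_exp.mpr
        nlinarith [hθ.1, hθ.2, hLg]
    have hF : Real.exp (g - L) * (t * Real.exp L - A) ≤
        t * Real.exp g - ∫ θ in (0 : ℝ)..1, θ * Real.exp (θ * g) := by
      have : Real.exp (g - L) * (t * Real.exp L) = t * Real.exp g := by
        have h2 : Real.exp g = Real.exp (g - L) * Real.exp L := by
          rw [← Real.exp_add]; ring_nf
        rw [h2]; ring
      rw [mul_sub, this]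
      linarith
    have hstep : t * Real.exp L - ∫ θ in (0 : ℝ)..1, θ * ∏ i, (1 + θ * z i) ≤
        t * Real.exp L - A := by linarith
    refine le_trans hstep ?_
    rcases le_total (t * Real.exp L - A) 0 with h | h
    · exact le_trans h (le_max_left _ _)
    · refine le_trans ?_ (le_max_right _ _)
      refine le_trans ?_ hF
      have h1 : 1 ≤ Real.exp (g - L) := Real.one_le_exp (by linarith)
      nlinarith

end Pool.Agent.Helper83.EMC.IntB
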